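import Mathlib

set_option autoImplicit false

namespace Pool.Agent.Results.MP_3f639a_co.ThreeAstralLift

/-- A combinatorial 4-configuration (n_4). -/
structure Config (n : ℕ) where
  /-- `inc i j` means that the point `i` is incident with the line `j` -/
  inc : Fin n → Fin n → Prop
  lines_through : ∀ i, {j | inc i j}.ncard = 4
  points_on : ∀ j, {i | inc i j}.ncard = 4
  unique_line : ∀ i i' j j', i ≠ i' → inc i j → inc i' j → inc i j' → inc i' j' → j = j'

/-- A geometric realization in the Euclidean space `V`: pairwise distinct points, pairwise distinct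
straight lines, and a realized point lies on a realized line if and only if the two are
incident. -/
structure Realization {n : ℕ} (C : Config n) (V : Type) [NormedAddCommGroup V]
    [InnerProductSpace ℝ V] where
  pt : Fin n → V
  ln : Fin n → AffineSubspace ℝ V
  pt_inj : Function.Injective pt
  ln_inj : Function.Injective ln
  ln_line : ∀ j, (ln j : Set V).Nonempty ∧ Module.finrank ℝ (ln j).direction = 1
  inc_iff : ∀ i j, pt i ∈ ln j ↔ C.inc i j

/-- The configuration `C` has dimension at least `d`: it has a realization in some `ℝ^m` whose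
affine hull has dimension at least `d`. -/
def DimensionAtLeast {n : ℕ} (d : ℕ) (C : Config n) : Prop :=
  ∃ (m : ℕ) (R : Realization C (EuclideanSpace ℝ (Fin m))),
    d ≤ Module.finrank ℝ (affineSpan ℝ (Set.range R.pt)).direction

/-- A symmetry of a planar realization (the Euclidean plane is the complex plane): an isometry of
the plane mapping the set of its points onto itself and the set of its lines onto itself. -/
def IsSymmetry {n : ℕ} {C : Config n} (R : Realization C ℂ) (f : ℂ ≃ᵢ ℂ) : Prop :=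
  f '' Set.range R.pt = Set.range R.pt ∧
  (fun s : Set ℂ => f '' s) '' Set.range (fun j => (R.ln j : Set ℂ)) =
    Set.range (fun j => (R.ln j : Set ℂ))

/-- The orbit of the point `i` under the symmetry group (as a set of indices). -/
def pointOrbit {n : ℕ} {C : Config n} (R : Realization C ℂ) (i : Fin n) : Set (Fin n) :=
  {i' | ∃ f, IsSymmetry R f ∧ f (R.pt i) = R.pt i'}

/-- The orbit of the line `j` under the symmetry group (as a set of indices). -/
def lineOrbit {n : ℕ} {C : Config n} (R : Realization C ℂ) (j : Fin n) : Set (Fin n) :=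
  {j' | ∃ f, IsSymmetry R f ∧ f '' (R.ln j : Set ℂ) = (R.ln j' : Set ℂ)}

/-- k-astral planar 4-configurations: exactly `k` orbits of points and exactly `k` orbits of lines
under the symmetry group. -/
def IsAstral {n : ℕ} {C : Config n} (k : ℕ) (R : Realization C ℂ) : Prop :=
  (Set.range (pointOrbit R)).ncard = k ∧ (Set.range (lineOrbit R)).ncard = k

/-! ### The combinatorial configuration -/

def nbr : Fin 36 → List (Fin 36) := ![[0, 1, 14, 23], [1, 2, 12, 15], [2, 3, 13, 16], [3, 4, 14,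
  17], [4, 5, 15, 18], [5, 6, 16, 19], [6, 7, 17, 20], [7, 8, 18, 21], [8, 9, 19, 22], [9, 10, 20,
  23], [10, 11, 12, 21], [0, 11, 13, 22], [12, 17, 26, 27], [13, 18, 27, 28], [14, 19, 28, 29],
  [15, 20, 29, 30], [16, 21, 30, 31], [17, 22, 31, 32], [18, 23, 32, 33], [12, 19, 33, 34], [13,
  20, 34, 35], [14, 21, 24, 35], [15, 22, 24, 25], [16, 23, 25, 26], [4, 11, 24, 27], [0, 5, 25,
  28], [1, 6, 26, 29], [2, 7, 27, 30], [3, 8, 28, 31], [4, 9, 29, 32], [5, 10, 30, 33], [6, 11,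
  31, 34], [0, 7, 32, 35], [1, 8, 24, 33], [2, 9, 25, 34], [3, 10, 26, 35]]

def inc36 (i j : Fin 36) : Prop := i ∈ nbr j

instance (i j : Fin 36) : Decidable (inc36 i j) := by unfold inc36; infer_instance

/-- two of the four points of a line -/
def pa : Fin 36 → Fin 36 := ![0, 1, 2, 3, 4, 5, 6, 7, 8, 9, 10, 11, 12, 13, 14, 15, 16, 17, 18,
  19, 20, 21, 22, 23, 24, 25, 26, 27, 28, 29, 30, 31, 32, 33, 34, 35]
def pb : Fin 36 → Fin 36 := ![1, 2, 3, 4, 5, 6, 7, 8, 9, 10, 11, 0, 17, 18, 19, 20, 21, 22, 23,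
  12, 13, 14, 15, 16, 27, 28, 29, 30, 31, 32, 33, 34, 35, 24, 25, 26]

theorem pa_ne_pb : ∀ j : Fin 36, pa j ≠ pb j := by decide +kernel

theorem pa_inc : ∀ j : Fin 36, inc36 (pa j) j := by decide +kernel

theorem uniq36 : ∀ j j' : Fin 36, ∀ i ∈ nbr j, ∀ i' ∈ nbr j, i ≠ i' → i ∈ nbr j' → i' ∈ nbr j' →
    j = j' := by decide +kernel

def C36 : Config 36 where
  inc := inc36
  lines_through := by
    intro i
    rw [Set.ncard_eq_toFinset_card']
    revert i; decide +kernel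
  points_on := by
    intro j
    rw [Set.ncard_eq_toFinset_card']
    revert j; decide +kernel
  unique_line := fun i i' j j' h h1 h2 h3 h4 => uniq36 j j' i h1 i' h2 h h3 h4

theorem sep : ∀ j j' : Fin 36, (∀ i ∈ nbr j, inc36 i j') → j = j' := by decide +kernel

/-! ### Lines in the plane and in space -/

theorem line_finrank {V : Type} [NormedAddCommGroup V] [InnerProductSpace ℝ V] {P Q : V}
    (h : P ≠ Q) : Module.finrank ℝ (line[ℝ, P, Q]).direction = 1 := by
  rw [direction_affineSpan, vectorSpan_pair_rev]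
  exact finrank_span_singleton (by simpa [sub_eq_zero] using h.symm)

theorem lineMap_eq (P Q : ℂ) (r : ℝ) : (AffineMap.lineMap P Q r : ℂ) =
    ⟨P.re + r * (Q.re - P.re), P.im + r * (Q.im - P.im)⟩ := by
  apply Complex.ext
  · simp [AffineMap.lineMap_apply]; ring
  · simp [AffineMap.lineMap_apply]; ring

theorem mem_line_iff {P Q R : ℂ} (h : P ≠ Q) :
    R ∈ line[ℝ, P, Q] ↔ (Q.re - P.re) * (R.im - P.im) = (Q.im - P.im) * (R.re - P.re) := by
  rw [mem_affineSpan_pair_iff_exists_lineMap_eq]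
  constructor
  · rintro ⟨r, rfl⟩
    rw [lineMap_eq]
    ring
  · intro e
    have hne : Q.re - P.re ≠ 0 ∨ Q.im - P.im ≠ 0 := by
      by_contra hc
      push Not at hc
      apply h
      apply Complex.ext
      · linarith [hc.1]
      · linarith [hc.2]
    rcases hne with h0 | h1
    · refine ⟨(R.re - P.re) / (Q.re - P.re), ?_⟩
      rw [lineMap_eq]
      apply Complex.ext
      · simp only; field_simp; ring
      · simp only; field_simp; linarith
    · refine ⟨(R.im - P.im) / (Q.im - P.im), ?_⟩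
      rw [lineMap_eq]
      apply Complex.ext
      · simp only; field_simp; linarith
      · simp only; field_simp; ring

theorem mem_line_iff3 {m : ℕ} {P Q R : EuclideanSpace ℝ (Fin m)} (h : P ≠ Q) :
    R ∈ line[ℝ, P, Q] ↔
      ∀ k l, (Q k - P k) * (R l - P l) = (Q l - P l) * (R k - P k) := by
  rw [mem_affineSpan_pair_iff_exists_lineMap_eq]
  constructor
  · rintro ⟨r, rfl⟩ k l
    simp [AffineMap.lineMap_apply]
    ring
  · intro e
    have hne : ∃ k, Q k - P k ≠ 0 := by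
      by_contra hc
      push Not at hc
      apply h
      ext k
      linarith [hc k]
    obtain ⟨k, hk⟩ := hne
    refine ⟨(R k - P k) / (Q k - P k), ?_⟩
    ext l
    have h1 := e k l
    simp [AffineMap.lineMap_apply]
    field_simp
    linarith

/-! ### The planar realization -/

def AX : Fin 36 → Zsqrtd 3 := ![⟨4, 0⟩, ⟨0, 2⟩, ⟨2, 0⟩, ⟨0, 0⟩, ⟨-2, 0⟩, ⟨0, -2⟩, ⟨-4, 0⟩, ⟨0,
  -2⟩, ⟨-2, 0⟩, ⟨0, 0⟩, ⟨2, 0⟩, ⟨0, 2⟩, ⟨2, 2⟩, ⟨3, 1⟩, ⟨1, 1⟩, ⟨0, 0⟩, ⟨-1, -1⟩, ⟨-3, -1⟩, ⟨-2,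
  -2⟩, ⟨-3, -1⟩, ⟨-1, -1⟩, ⟨0, 0⟩, ⟨1, 1⟩, ⟨3, 1⟩, ⟨-2, 2⟩, ⟨3, -1⟩, ⟨-1, 1⟩, ⟨0, 0⟩, ⟨1, -1⟩,
  ⟨-3, 1⟩, ⟨2, -2⟩, ⟨-3, 1⟩, ⟨1, -1⟩, ⟨0, 0⟩, ⟨-1, 1⟩, ⟨3, -1⟩]
def AY : Fin 36 → Zsqrtd 3 := ![⟨0, 0⟩, ⟨2, 0⟩, ⟨0, 2⟩, ⟨4, 0⟩, ⟨0, 2⟩, ⟨2, 0⟩, ⟨0, 0⟩, ⟨-2, 0⟩,
  ⟨0, -2⟩, ⟨-4, 0⟩, ⟨0, -2⟩, ⟨-2, 0⟩, ⟨0, 0⟩, ⟨1, 1⟩, ⟨3, 1⟩, ⟨2, 2⟩, ⟨3, 1⟩, ⟨1, 1⟩, ⟨0, 0⟩, ⟨-1,
  -1⟩, ⟨-3, -1⟩, ⟨-2, -2⟩, ⟨-3, -1⟩, ⟨-1, -1⟩, ⟨0, 0⟩, ⟨-1, 1⟩, ⟨3, -1⟩, ⟨-2, 2⟩, ⟨3, -1⟩, ⟨-1,
  1⟩, ⟨0, 0⟩, ⟨1, -1⟩, ⟨-3, 1⟩, ⟨2, -2⟩, ⟨-3, 1⟩, ⟨1, -1⟩]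

noncomputable def φ : Zsqrtd 3 →+* ℝ := Zsqrtd.toReal (by norm_num)

theorem φ_inj : Function.Injective φ := by
  apply Zsqrtd.toReal_injective
  intro n h
  have h1 : n < 2 := by nlinarith
  have h2 : -2 < n := by nlinarith
  interval_cases n <;> omega

theorem φ_sqrtd : φ ⟨0, 1⟩ = √3 := by
  simp [φ]

theorem a_inj : ∀ i j : Fin 36, AX i = AX j → AY i = AY j → i = j := by decide +kernel

theorem a_det : ∀ i j : Fin 36, ((AX (pb j) - AX (pa j)) * (AY i - AY (pa j)) =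
    (AY (pb j) - AY (pa j)) * (AX i - AX (pa j))) ↔ inc36 i j := by decide +kernel

noncomputable def apt (i : Fin 36) : ℂ := ⟨φ (AX i), φ (AY i)⟩

theorem apt_inj : Function.Injective apt := by
  intro i j h
  rw [Complex.ext_iff] at h
  exact a_inj i j (φ_inj h.1) (φ_inj h.2)

theorem apt_line (i j : Fin 36) : apt i ∈ line[ℝ, apt (pa j), apt (pb j)] ↔ inc36 i j := by
  rw [mem_line_iff (apt_inj.ne (pa_ne_pb j)), ← a_det i j, ← φ_inj.eq_iff]
  simp only [map_mul, map_sub, apt]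

noncomputable def A36 : Realization C36 ℂ where
  pt := apt
  ln := fun j => line[ℝ, apt (pa j), apt (pb j)]
  pt_inj := apt_inj
  ln_inj := by
    intro j j' h
    apply sep
    intro i hi
    rw [← apt_line]
    simp only at h
    rw [← h, apt_line]
    exact hi
  ln_line := by
    intro j
    exact ⟨⟨apt (pa j), left_mem_affineSpan_pair ℝ _ _⟩, line_finrank (apt_inj.ne (pa_ne_pb j))⟩
  inc_iff := fun i j => apt_line i j

theorem A36_ln (j : Fin 36) : A36.ln j = line[ℝ, apt (pa j), apt (pb j)] := rfl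
theorem A36_pt (j : Fin 36) : A36.pt j = apt j := rfl

/-- the rotation through 30 degrees on the indices (of points and of lines) -/
def s1 : Fin 36 → Fin 36 := ![1, 2, 3, 4, 5, 6, 7, 8, 9, 10, 11, 0, 13, 14, 15, 16, 17, 18, 19,
  20, 21, 22, 23, 12, 25, 26, 27, 28, 29, 30, 31, 32, 33, 34, 35, 24]

theorem s1_surj : Function.Surjective s1 := by
  have : ∀ i : Fin 36, ∃ j, s1 j = i := by decide +kernel
  exact this

theorem rot_check : ∀ i : Fin 36, (⟨0, 1⟩ : Zsqrtd 3) * AX i - AY i = 2 * AX (s1 i) ∧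
    AX i + (⟨0, 1⟩ : Zsqrtd 3) * AY i = 2 * AY (s1 i) := by decide +kernel
theorem s1_line : ∀ j : Fin 36, s1 (pa j) = pa (s1 j) ∧ s1 (pb j) = pb (s1 j) := by decide +kernel

noncomputable def om : ℂ := ⟨√3 / 2, 1 / 2⟩

theorem norm_om : ‖om‖ = 1 := by
  have h : ‖om‖ ^ 2 = 1 := by
    rw [Complex.sq_norm, Complex.normSq_apply]
    have h3 : √3 * √3 = 3 := Real.mul_self_sqrt (by norm_num)
    simp only [om]
    linear_combination (1 / 4) * h3
  have h0 := norm_nonneg om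
  nlinarith

theorem om_mul (i : Fin 36) : om * apt i = apt (s1 i) := by
  have h := rot_check i
  have h1 := congrArg φ h.1
  have h2 := congrArg φ h.2
  simp only [map_mul, map_sub, map_add, φ_sqrtd, map_ofNat] at h1 h2
  apply Complex.ext
  · simp only [om, apt, Complex.mul_re]; linarith
  · simp only [om, apt, Complex.mul_im]; linarith

theorem om_pow_mul (k : ℕ) (i : Fin 36) : om ^ k * apt i = apt (s1^[k] i) := by
  induction k generalizing i with
  | zero => simp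
  | succ k ih =>
    rw [pow_succ, mul_assoc, om_mul, ih, Function.iterate_succ_apply]

theorem image_line (f : ℂ ≃ᵢ ℂ) (a b : ℂ) :
    f '' (line[ℝ, a, b] : Set ℂ) = (line[ℝ, f a, f b] : Set ℂ) := by
  have h := AffineSubspace.map_span f.toRealAffineIsometryEquiv.toAffineEquiv.toAffineMap {a, b}
  rw [Set.image_pair] at h
  have h2 := congrArg (fun s : AffineSubspace ℝ ℂ => (s : Set ℂ)) h
  simp only [AffineSubspace.coe_map] at h2
  exact h2

theorem sym_of {f : ℂ ≃ᵢ ℂ} {s t : Fin 36 → Fin 36} (hs : Function.Surjective s)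
    (ht : Function.Surjective t) (h1 : ∀ i, f (apt i) = apt (s i))
    (h2 : ∀ j, f '' (A36.ln j : Set ℂ) = (A36.ln (t j) : Set ℂ)) : IsSymmetry A36 f := by
  constructor
  · rw [← Set.range_comp]
    have : f ∘ A36.pt = A36.pt ∘ s := funext h1
    rw [this, hs.range_comp]
  · rw [← Set.range_comp]
    have : (fun s : Set ℂ => f '' s) ∘ (fun j => (A36.ln j : Set ℂ)) =
      (fun j => (A36.ln j : Set ℂ)) ∘ t := funext h2
    rw [this, ht.range_comp]

theorem iter_line (k : ℕ) (j : Fin 36) :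
    s1^[k] (pa j) = pa (s1^[k] j) ∧ s1^[k] (pb j) = pb (s1^[k] j) := by
  induction k generalizing j with
  | zero => simp only [Function.iterate_zero, id_eq, and_self]
  | succ k ih =>
    rw [Function.iterate_succ_apply, Function.iterate_succ_apply, Function.iterate_succ_apply,
      (s1_line j).1, (s1_line j).2]
    exact ih (s1 j)

theorem rot_pt {f : ℂ ≃ᵢ ℂ} {k : ℕ} (h : ∀ z, f z = om ^ k * z) (i : Fin 36) :
    f (apt i) = apt (s1^[k] i) := by rw [h, om_pow_mul]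

theorem rot_ln {f : ℂ ≃ᵢ ℂ} {k : ℕ} (h : ∀ z, f z = om ^ k * z) (j : Fin 36) :
    f '' (A36.ln j : Set ℂ) = (A36.ln (s1^[k] j) : Set ℂ) := by
  rw [A36_ln, A36_ln, image_line, rot_pt h, rot_pt h, (iter_line k j).1, (iter_line k j).2]

theorem sym_rot {f : ℂ ≃ᵢ ℂ} {k : ℕ} (h : ∀ z, f z = om ^ k * z) : IsSymmetry A36 f :=
  sym_of (s1_surj.iterate k) (s1_surj.iterate k) (rot_pt h) (rot_ln h)

/-! ### Symmetries preserve the three rings -/

theorem exists_perm {α : Type} {n : ℕ} (p : Fin n → α) (hp : Function.Injective p) (f : α → α)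
    (hf : Function.Injective f) (h : f '' Set.range p = Set.range p) :
    ∃ s : Equiv.Perm (Fin n), ∀ i, f (p i) = p (s i) := by
  have h1 : ∀ i, ∃ k, p k = f (p i) := by
    intro i
    have : f (p i) ∈ f '' Set.range p := ⟨p i, ⟨i, rfl⟩, rfl⟩
    rw [h] at this
    exact this
  choose s hs using h1
  have hinj : Function.Injective s := by
    intro i j hij
    have : f (p i) = f (p j) := by rw [← hs, ← hs, hij]
    exact hp (hf this)
  exact ⟨Equiv.ofBijective s (Finite.injective_iff_bijective.mp hinj), fun i => (hs i).symm⟩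

theorem centroid_fixed {n : ℕ} [NeZero n] (p : Fin n → ℂ) (f : ℂ ≃ᵢ ℂ) (s : Equiv.Perm (Fin n))
    (h : ∀ i, f (p i) = p (s i)) : f (Finset.univ.centroid ℝ p) = Finset.univ.centroid ℝ p := by
  have h1 : (∑ i : Fin n, Finset.centroidWeights ℝ Finset.univ i) = 1 :=
    Finset.sum_centroidWeights_eq_one_of_card_ne_zero ℝ _ (by simp [NeZero.ne])
  have h2 := Finset.map_affineCombination (k := ℝ) Finset.univ p (Finset.centroidWeights ℝ Finset.univ) h1
    (f.toRealAffineIsometryEquiv.toAffineEquiv.toAffineMap)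
  have h3 : ∀ x, (f.toRealAffineIsometryEquiv.toAffineEquiv.toAffineMap) x = f x := fun x => rfl
  rw [h3] at h2
  rw [Finset.centroid_def, h2]
  have h4 : (⇑(f.toRealAffineIsometryEquiv.toAffineEquiv.toAffineMap) ∘ p) = p ∘ s := by
    funext i
    exact h i
  rw [h4]
  have h5 := Finset.affineCombination_map (k := ℝ) Finset.univ s.toEmbedding (Finset.centroidWeights ℝ Finset.univ) p
  simp only [Finset.map_univ_equiv] at h5
  rw [h5]
  rfl

theorem sumX : (∑ i : Fin 36, AX i) = 0 := by decide +kernel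
theorem sumY : (∑ i : Fin 36, AY i) = 0 := by decide +kernel

theorem centroid_zero : Finset.univ.centroid ℝ apt = 0 := by
  have h1 : (∑ i : Fin 36, Finset.centroidWeights ℝ Finset.univ i) = 1 :=
    Finset.sum_centroidWeights_eq_one_of_card_ne_zero ℝ _ (by simp)
  rw [Finset.centroid_def, Finset.affineCombination_eq_linear_combination _ _ _ h1]
  simp only [Finset.centroidWeights_apply]
  rw [← Finset.smul_sum]
  have : ∑ i : Fin 36, apt i = 0 := by
    apply Complex.ext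
    · rw [Complex.re_sum]
      simp only [apt]
      rw [← map_sum, sumX, map_zero]; rfl
    · rw [Complex.im_sum]
      simp only [apt]
      rw [← map_sum, sumY, map_zero]; rfl
  rw [this, smul_zero]

/-- the ring of an index: 0, 1 or 2 -/
def ringIdx (i : Fin 36) : ℕ := i.val / 12

theorem norm_check : ∀ i i' : Fin 36, AX i * AX i + AY i * AY i = AX i' * AX i' + AY i' * AY i' →
    ringIdx i = ringIdx i' := by decide +kernel

theorem reach : ∀ i i' : Fin 36, ringIdx i' = ringIdx i → ∃ k : Fin 12, s1^[k.val] i = i' := by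
  decide +kernel

/-- a symmetry permutes the points within the rings -/
theorem sym_pt {f : ℂ ≃ᵢ ℂ} (h : IsSymmetry A36 f) :
    ∃ s : Equiv.Perm (Fin 36), (∀ i, f (apt i) = apt (s i)) ∧ ∀ i, ringIdx (s i) = ringIdx i := by
  obtain ⟨s, hs⟩ := exists_perm A36.pt A36.pt_inj f f.injective h.1
  have hs' : ∀ i, f (apt i) = apt (s i) := hs
  refine ⟨s, hs', fun i => ?_⟩
  have h0 : f 0 = 0 := by
    have := centroid_fixed apt f s hs'
    rwa [centroid_zero] at this
  have hn : ‖apt (s i)‖ = ‖apt i‖ := by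
    rw [← hs' i, ← dist_zero_right, ← dist_zero_right]
    conv_lhs => rw [← h0]
    exact f.isometry.dist_eq _ _
  apply norm_check
  apply φ_inj
  have h2 : ‖apt (s i)‖ ^ 2 = ‖apt i‖ ^ 2 := by rw [hn]
  rw [← Complex.normSq_eq_norm_sq, ← Complex.normSq_eq_norm_sq, Complex.normSq_apply,
    Complex.normSq_apply] at h2
  simpa only [map_add, map_mul, apt] using h2

theorem line_rings : ∀ j j' : Fin 36,
    (∀ i ∈ nbr j, ∃ i' ∈ nbr j', ringIdx i' = ringIdx i) → ringIdx j' = ringIdx j := by decide +kernel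

/-! ### Orbits -/

/-- the rotation by `om ^ k` as an isometry -/
noncomputable def rotIso (k : ℕ) : ℂ ≃ᵢ ℂ :=
  (rotation ⟨om ^ k, by simp [Submonoid.unitSphere, norm_om]⟩).toIsometryEquiv

theorem rotIso_apply (k : ℕ) (z : ℂ) : rotIso k z = om ^ k * z := rfl

/-- the set of the indices in the same ring -/
def blk (i : Fin 36) : Set (Fin 36) := {i' | ringIdx i' = ringIdx i}

theorem pointOrbit_eq (i : Fin 36) : pointOrbit A36 i = blk i := by
  ext i'
  constructor
  · rintro ⟨f, hf, h⟩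
    obtain ⟨s, hs, hr⟩ := sym_pt hf
    rw [A36_pt, A36_pt, hs] at h
    have := apt_inj h
    change ringIdx i' = ringIdx i
    rw [← this, hr]
  · intro h
    obtain ⟨k, hk⟩ := reach i i' h
    refine ⟨rotIso k.val, sym_rot (k := k.val) (rotIso_apply _), ?_⟩
    rw [A36_pt, A36_pt, rot_pt (k := k.val) (rotIso_apply _), hk]

theorem lineOrbit_eq (j : Fin 36) : lineOrbit A36 j = blk j := by
  ext j'
  constructor
  · rintro ⟨f, hf, h⟩
    obtain ⟨s, hs, hr⟩ := sym_pt hf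
    change ringIdx j' = ringIdx j
    apply line_rings
    intro i hi
    have h1 : apt i ∈ (A36.ln j : Set ℂ) := (apt_line i j).2 hi
    have h2 : f (apt i) ∈ (A36.ln j' : Set ℂ) := by
      rw [← h]
      exact ⟨_, h1, rfl⟩
    rw [hs] at h2
    exact ⟨s i, (apt_line (s i) j').1 h2, hr i⟩
  · intro h
    obtain ⟨k, hk⟩ := reach j j' h
    refine ⟨rotIso k.val, sym_rot (k := k.val) (rotIso_apply _), ?_⟩
    rw [rot_ln (k := k.val) (rotIso_apply _), hk]

theorem blk_eq {i i' : Fin 36} (h : ringIdx i = ringIdx i') : blk i = blk i' := by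
  unfold blk
  rw [h]

theorem blk_ne {i i' : Fin 36} (h : ringIdx i ≠ ringIdx i') : blk i ≠ blk i' := by
  intro he
  have h1 : i ∈ blk i := rfl
  rw [he] at h1
  exact h h1

theorem range_blk : (Set.range blk).ncard = 3 := by
  have h1 : Set.range blk = {blk 0, blk 12, blk 24} := by
    ext s
    simp only [Set.mem_range, Set.mem_insert_iff, Set.mem_singleton_iff]
    constructor
    · rintro ⟨i, rfl⟩
      have h3 : ∀ i : Fin 36, ringIdx i = ringIdx 0 ∨ ringIdx i = ringIdx 12 ∨ ringIdx i = ringIdx 24 := by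
        decide +kernel
      rcases h3 i with h | h | h
      · exact Or.inl (blk_eq h)
      · exact Or.inr (Or.inl (blk_eq h))
      · exact Or.inr (Or.inr (blk_eq h))
    · rintro (rfl | rfl | rfl)
      · exact ⟨0, rfl⟩
      · exact ⟨12, rfl⟩
      · exact ⟨24, rfl⟩
  rw [h1, Set.ncard_eq_three]
  exact ⟨blk 0, blk 12, blk 24, blk_ne (by decide), blk_ne (by decide), blk_ne (by decide), rfl⟩

theorem A36_astral : IsAstral 3 A36 := by
  unfold IsAstral
  rw [funext pointOrbit_eq, funext lineOrbit_eq]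
  exact ⟨range_blk, range_blk⟩

/-! ### The lift to space -/

def AZ : Fin 36 → Zsqrtd 3 := ![⟨1, 0⟩, ⟨-1, 0⟩, ⟨1, 0⟩, ⟨-1, 0⟩, ⟨1, 0⟩, ⟨-1, 0⟩, ⟨1, 0⟩, ⟨-1,
  0⟩, ⟨1, 0⟩, ⟨-1, 0⟩, ⟨1, 0⟩, ⟨-1, 0⟩, ⟨-2, -1⟩, ⟨2, 1⟩, ⟨-2, -1⟩, ⟨2, 1⟩, ⟨-2, -1⟩, ⟨2, 1⟩, ⟨-2,
  -1⟩, ⟨2, 1⟩, ⟨-2, -1⟩, ⟨2, 1⟩, ⟨-2, -1⟩, ⟨2, 1⟩, ⟨-2, 1⟩, ⟨2, -1⟩, ⟨-2, 1⟩, ⟨2, -1⟩, ⟨-2, 1⟩,
  ⟨2, -1⟩, ⟨-2, 1⟩, ⟨2, -1⟩, ⟨-2, 1⟩, ⟨2, -1⟩, ⟨-2, 1⟩, ⟨2, -1⟩]

/-- coordinates of the lifted points -/
def AP (i : Fin 36) : Fin 3 → Zsqrtd 3 := ![AX i, AY i, AZ i]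

theorem lift_det : ∀ i j : Fin 36, inc36 i j → ∀ k l : Fin 3,
    (AP (pb j) k - AP (pa j) k) * (AP i l - AP (pa j) l) =
      (AP (pb j) l - AP (pa j) l) * (AP i k - AP (pa j) k) := by decide +kernel

noncomputable def lpt (i : Fin 36) : EuclideanSpace ℝ (Fin 3) :=
  WithLp.toLp 2 (fun k => φ (AP i k))

theorem lpt_apply (i : Fin 36) (k : Fin 3) : lpt i k = φ (AP i k) := rfl

theorem lpt_inj : Function.Injective lpt := by
  intro i j h
  have h0 : lpt i 0 = lpt j 0 := by rw [h]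
  have h1 : lpt i 1 = lpt j 1 := by rw [h]
  exact a_inj i j (φ_inj h0) (φ_inj h1)

theorem lpt_line (i j : Fin 36) : lpt i ∈ line[ℝ, lpt (pa j), lpt (pb j)] ↔ inc36 i j := by
  rw [mem_line_iff3 (lpt_inj.ne (pa_ne_pb j))]
  constructor
  · intro h
    rw [← a_det i j]
    apply φ_inj
    have h01 : (φ (AX (pb j)) - φ (AX (pa j))) * (φ (AY i) - φ (AY (pa j))) =
      (φ (AY (pb j)) - φ (AY (pa j))) * (φ (AX i) - φ (AX (pa j))) := h 0 1
    simpa only [map_mul, map_sub] using h01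
  · intro h k l
    have h1 := congrArg φ (lift_det i j h k l)
    simpa only [map_mul, map_sub, lpt_apply] using h1

noncomputable def L36 : Realization C36 (EuclideanSpace ℝ (Fin 3)) where
  pt := lpt
  ln := fun j => line[ℝ, lpt (pa j), lpt (pb j)]
  pt_inj := lpt_inj
  ln_inj := by
    intro j j' h
    apply sep
    intro i hi
    rw [← lpt_line]
    simp only at h
    rw [← h, lpt_line]
    exact hi
  ln_line := by
    intro j
    exact ⟨⟨lpt (pa j), left_mem_affineSpan_pair ℝ _ _⟩, line_finrank (lpt_inj.ne (pa_ne_pb j))⟩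
  inc_iff := fun i j => lpt_line i j

theorem L36_dim : Module.finrank ℝ (affineSpan ℝ (Set.range L36.pt)).direction = 3 := by
  rw [direction_affineSpan]
  have hmem : ∀ i j : Fin 36, lpt i - lpt j ∈ vectorSpan ℝ (Set.range L36.pt) := fun i j =>
    vsub_mem_vectorSpan ℝ ⟨i, rfl⟩ ⟨j, rfl⟩
  have hx : EuclideanSpace.single (0 : Fin 3) (1 : ℝ) ∈ vectorSpan ℝ (Set.range L36.pt) := by
    have h1 := Submodule.smul_mem _ (1 / 8 : ℝ) (hmem 0 6)
    have h2 : (1 / 8 : ℝ) • (lpt 0 - lpt 6) = EuclideanSpace.single (0 : Fin 3) (1 : ℝ) := by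
      ext k
      fin_cases k
      · simp [lpt_apply, AP, AX, φ]; norm_num
      · simp [lpt_apply, AP, AY, φ]
      · simp [lpt_apply, AP, AZ, φ]
    rwa [h2] at h1
  have hy : EuclideanSpace.single (1 : Fin 3) (1 : ℝ) ∈ vectorSpan ℝ (Set.range L36.pt) := by
    have h1 := Submodule.smul_mem _ (1 / 8 : ℝ) (hmem 3 9)
    have h2 : (1 / 8 : ℝ) • (lpt 3 - lpt 9) = EuclideanSpace.single (1 : Fin 3) (1 : ℝ) := by
      ext k
      fin_cases k
      · simp [lpt_apply, AP, AX, φ]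
      · simp [lpt_apply, AP, AY, φ]; norm_num
      · simp [lpt_apply, AP, AZ, φ]
    rwa [h2] at h1
  have hz : EuclideanSpace.single (2 : Fin 3) (1 : ℝ) ∈ vectorSpan ℝ (Set.range L36.pt) := by
    -- `P0 - P3 = (4, -4, 2)`
    have h1 := Submodule.smul_mem _ (1 / 2 : ℝ) (hmem 0 3)
    have h3 := Submodule.add_mem _ (Submodule.sub_mem _ h1 (Submodule.smul_mem _ (2 : ℝ) hx))
      (Submodule.smul_mem _ (2 : ℝ) hy)
    have h2 : (1 / 2 : ℝ) • (lpt 0 - lpt 3) - (2 : ℝ) • EuclideanSpace.single (0 : Fin 3) (1 : ℝ) +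
        (2 : ℝ) • EuclideanSpace.single (1 : Fin 3) (1 : ℝ) =
        EuclideanSpace.single (2 : Fin 3) (1 : ℝ) := by
      ext k
      fin_cases k
      · simp [lpt_apply, AP, AX, φ]; norm_num
      · simp [lpt_apply, AP, AY, φ]; norm_num
      · simp [lpt_apply, AP, AZ, φ]; norm_num
    rwa [h2] at h3
  have htop : vectorSpan ℝ (Set.range L36.pt) = ⊤ := by
    rw [eq_top_iff]
    intro v _
    have hv : v = v 0 • EuclideanSpace.single (0 : Fin 3) (1 : ℝ) +
        v 1 • EuclideanSpace.single (1 : Fin 3) (1 : ℝ) +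
        v 2 • EuclideanSpace.single (2 : Fin 3) (1 : ℝ) := by
      ext k
      fin_cases k <;> simp
    rw [hv]
    exact Submodule.add_mem _ (Submodule.add_mem _ (Submodule.smul_mem _ _ hx)
      (Submodule.smul_mem _ _ hy)) (Submodule.smul_mem _ _ hz)
  rw [htop, finrank_top, finrank_euclideanSpace_fin]

/-- **A 3-astral 4-configuration of dimension at least three.** There is a planar geometric
`(n_4)` configuration (with `n = 36`) which is 3-astral and whose underlying combinatorial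
configuration has a geometric realization in Euclidean space `ℝ³` with affine hull of
dimension 3. -/
theorem result :
    ∃ (C : Config 36) (A : Realization C ℂ), IsAstral 3 A ∧ DimensionAtLeast 3 C :=
  ⟨C36, A36, A36_astral, 3, L36, L36_dim.ge⟩

end Pool.Agent.Results.MP_3f639a_co.ThreeAstralLift
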